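import Pool.Agent.W593.IR.Stm

/-!
# Project IR: an edge gives `k!` tuples (part FAC)
-/

set_option autoImplicit false

namespace Pool.Agent.W412.IR

open Finset Pool.Agent.W890.SF Pool.Agent.W593.IR

/-- the tuples of an edge -/
def tup {V : Type} [DecidableEq V] (k : ℕ) (e : Finset V) : Finset (Fin k → V) :=
  (univ : Finset (Fin k ≃ e)).image fun σ i => (σ i : V)

theorem image_of_mem {V : Type} [DecidableEq V] {k : ℕ} {e : Finset V} {f : Fin k → V}
    (h : f ∈ tup k e) : univ.image f = e := by
  obtain ⟨σ, -, rfl⟩ := Finset.mem_image.1 h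
  ext v
  simp only [Finset.mem_image, Finset.mem_univ, true_and]
  constructor
  · rintro ⟨i, rfl⟩
    exact (σ i).2
  · intro hv
    exact ⟨σ.symm ⟨v, hv⟩, by simp⟩

theorem card_tup {V : Type} [DecidableEq V] {k : ℕ} {e : Finset V} (h : e.card = k) :
    (tup k e).card = k.factorial := by
  unfold tup
  rw [Finset.card_image_of_injective, Finset.card_univ]
  · have σ : Fin k ≃ e := (Fintype.equivFinOfCardEq (by rw [Fintype.card_coe, h])).symm
    rw [Fintype.card_equiv σ, Fintype.card_fin]
  · intro σ τ hst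
    ext i
    exact congrFun hst i

theorem fac : S_FAC := by
  intro V _ _ k F y hF hy
  have h1 : ((F.biUnion (tup k)).card : ℕ) = F.card * k.factorial := by
    rw [Finset.card_biUnion]
    · rw [Finset.sum_congr rfl fun e he => card_tup (hF e he), Finset.sum_const, smul_eq_mul]
    · intro e _ e' _ hne
      show Disjoint (tup k e) (tup k e')
      rw [Finset.disjoint_left]
      intro f hf hf'
      exact hne ((image_of_mem hf).symm.trans (image_of_mem hf'))
  rw [← h1, ← Set.ncard_coe_finset]
  unfold NG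
  refine Set.ncard_le_ncard ?_ (Set.toFinite _)
  intro f hf
  rw [Finset.mem_coe, Finset.mem_biUnion] at hf
  obtain ⟨e, he, hf⟩ := hf
  obtain ⟨σ, -, rfl⟩ := Finset.mem_image.1 hf
  show 1 ≤ ∑ i, y (σ i)
  rw [Equiv.sum_comp σ (fun v : e => y v), Finset.sum_coe_sort e y]
  exact hy e he

end Pool.Agent.W412.IR
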